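import Mathlib

set_option autoImplicit false
open Finset SimpleGraph

namespace Pool.Agent.Results.MP_b7e006_co.NoAlliance

variable {V : Type} [Fintype V] [DecidableEq V]

/-- A defensive alliance. -/
def IsDA (G : SimpleGraph V) [DecidableRel G.Adj] (D : Finset V) : Prop :=
  D.Nonempty ∧ ∀ v ∈ D, #(G.neighborFinset v \ D) ≤ #(G.neighborFinset v ∩ D) + 1

/-- A locally minimal defensive alliance. -/
def IsLocMin (G : SimpleGraph V) [DecidableRel G.Adj] (D : Finset V) : Prop :=
  IsDA G D ∧ ∀ v ∈ D, ¬ IsDA G (D.erase v)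

def G : SimpleGraph (Fin 8) := fromRel fun a b => (a, b) ∈ ([(0, 3), (0, 7), (1, 4), (1, 5), (1, 6),
  (1, 7), (2, 4), (2, 5), (2, 6), (2, 7), (3, 4), (3, 5), (3, 6), (3, 7), (4, 5), (4, 6), (4, 7),
  (5, 6), (5, 7), (6, 7)] : List (Fin 8 × Fin 8))

instance : DecidableRel G.Adj := fun _ _ => by unfold G; simp only [fromRel_adj]; infer_instance

theorem result : ∃ (V : Type) (_ : Fintype V) (_ : DecidableEq V) (G : SimpleGraph V)
    (_ : DecidableRel G.Adj) (v : V), (∀ u, 2 ≤ G.degree u) ∧ ∀ D, IsLocMin G D → v ∉ D := by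
  refine ⟨_, inferInstance, inferInstance, G, inferInstance, 0, by decide +kernel, ?_⟩
  unfold IsLocMin IsDA
  decide +kernel

end Pool.Agent.Results.MP_b7e006_co.NoAlliance
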